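import Pool.Agent.H755.TT.Maps

/-!
# Tight substantial maps of the complex projective plane whose image is not convex

Negative answer to Q2 (the negated form with `d = 2`, both for `N = 2 d = 4` and for `N = 2 d + 1 = 5`).

The complex projective plane is taken as the space of the Hermitian projections `A` of rank one of
`ℂ³`. For `N = 4` the map is `A ↦ (2 Re A₀₁, 2 Im A₀₁, A₀₀ - A₁₁, A₀₀ + A₁₁)`; its image is the hollow
cone `{(x, s) | |x| = s ≤ 1}` over the round sphere `S²`. For larger `N` the remaining coordinates of
the standard model are added one by one. The preimage of a half-space is the set of the points at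
which a Hermitian form is nonnegative; after diagonalization it is empty, everything, or it deforms
to a coordinate point or to a coordinate projective line.
-/

namespace Pool.Agent.Results.MP_bb5b69_gt.ConvexImageFails

open Pool.Agent.Helper775.Tight Pool.Agent.H755.TT

/-- A closed topological manifold of dimension `2d` containing a locally flat sphere `S^d` whose
complement is homeomorphic to `ℝ^{2d}`. -/
structure IsTameProjectivePlane (d : ℕ) (P : Type*) [TopologicalSpace P]
    [ChartedSpace (EuclideanSpace ℝ (Fin (2 * d))) P] : Prop where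
  compact : CompactSpace P
  hausdorff : T2Space P
  sphere_and_cell : ∃ S : Set P,
    Nonempty (S ≃ₜ Metric.sphere (0 : EuclideanSpace ℝ (Fin (d + 1))) 1) ∧
    (∀ x ∈ S, ∃ φ : OpenPartialHomeomorph P (EuclideanSpace ℝ (Fin (2 * d))), x ∈ φ.source ∧
      ∀ y ∈ φ.source, (y ∈ S ↔ ∀ i : Fin (2 * d), d ≤ i.1 → φ y i = 0)) ∧
    Nonempty ((Sᶜ : Set P) ≃ₜ EuclideanSpace ℝ (Fin (2 * d)))

/-- the affine charts of `ℂP²`. -/
noncomputable instance : ChartedSpace (EuclideanSpace ℝ (Fin (2 * 2))) CP2 :=
  inferInstanceAs (ChartedSpace E4 CP2)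

/-- The complex projective plane `ℂP²` is a manifold like a projective plane (`d = 2`), and for every
`4 ≤ N ≤ 8` there is a continuous, substantial and tight map `f : ℂP² → ℝ^N` whose image is not convex
and is not the boundary of a compact convex set. -/
theorem result :
    IsTameProjectivePlane 2 CP2 ∧
    ∀ N : ℕ, 4 ≤ N → N ≤ 8 → ∃ f : CP2 → EuclideanSpace ℝ (Fin N),
      Continuous f ∧ Substantial f ∧ TightMap f ∧ CechTightMap f ∧
      ¬ Convex ℝ (Set.range f) ∧
      ∀ C : Set (EuclideanSpace ℝ (Fin N)), IsCompact C → Convex ℝ C →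
        Set.range f ≠ frontier C := by
  refine ⟨⟨inferInstance, inferInstance, LL, LL_sphere_exists, LL_flat, ⟨LL_compl⟩⟩, ?_⟩
  intro N h4 h8
  exact ⟨ff h8, continuous_ff h8, substantial_ff h8, tight_ff h8, cech_ff h8, not_convex_ff h8 h4,
    not_frontier_ff h8 h4⟩

end Pool.Agent.Results.MP_bb5b69_gt.ConvexImageFails
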