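import Pool.Agent.H755.TT.Pos2

/-!
# Tight substantial maps of manifolds like projective planes into `ℝ^N`, `N ≤ d + 1`

The second clause of Q2 holds for `N ≤ d + 1`: the image is convex. (It fails for `N = d + 2` when
`d = 2`, see `ConvexImageFails`.)

Idea: let `q` be an interior point of the convex hull which is not in the image, and let `W` be the
set of the pairs `(x, z)`, `z` a unit vector, with `0 ≤ ⟨z, f x - q⟩`. Its fibres over `P` are closed
hemispheres, so `W` has the cohomology of `P`. Its fibres over the sphere `S^{N-1}` are preimages of
half-spaces, so by tightness they are connected and have no cohomology except in degree `d`. As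
`N - 1 ≤ d`, the class of the sphere survives in `H^{N-1}(W) = H^{N-1}(P)`. So `N - 1 = d`, and the
generator of `H^d(P)` vanishes on all fibres. By tightness these are acyclic and `W` has the cohomology
of the sphere, although `H^{2d}(P)` is not zero.
-/

namespace Pool.Agent.Results.MP_bb5b69_gt.ConvexImageLowDim

open Pool.Agent.Helper775.Tight

/-- Let `P` be a closed topological `2d`-manifold (`d ≥ 1`) containing a sphere `S^d` whose complement
is homeomorphic to `ℝ^{2d}`, and let `f : P → ℝ^N` be a continuous substantial map which is tight
(for singular homology mod 2, or for Čech theory mod 2). If `N ≤ d + 1` then `f(P)` is convex. -/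
theorem result {P : Type*} [TopologicalSpace P] {d N : ℕ} (hd : 1 ≤ d)
    [ChartedSpace (EuclideanSpace ℝ (Fin (2 * d))) P] (hP : IsLikeProjectivePlane d P)
    (f : P → EuclideanSpace ℝ (Fin N)) (hf : Continuous f) (hs : Substantial f)
    (ht : TightMap f ∨ CechTightMap f) (hN : N ≤ d + 1) : Convex ℝ (Set.range f) :=
  Pool.Agent.H755.TT.convex_of_le hd hP f hf hs ht hN

end Pool.Agent.Results.MP_bb5b69_gt.ConvexImageLowDim
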